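import Mathlib
import Pool.Agent.Q204.TI.Main

/-!
# The multivariate trace inequality with a dimension free constant

For positive semidefinite complex `d × d` matrices `A_1, ..., A_n` one has
`Tr √(∑ A_j²) - ∑ Tr A_j ≥ (32 n + 8) ∑_{j < k} (‖A_j - A_k‖₁ - Tr (A_j + A_k))`.
-/

open Matrix
open scoped MatrixOrder ComplexOrder

namespace Pool.Agent.Results.MP_ebd556_mp.MultivariateTrace

/-- The trace norm `Tr √(X* X)`. -/
noncomputable def traceNorm {d : ℕ} (X : Matrix (Fin d) (Fin d) ℂ) : ℝ :=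
  (CFC.sqrt (Xᴴ * X)).trace.re

/-- `L(A_1, ..., A_n) = Tr √(∑ A_j²) - ∑ Tr A_j`. -/
noncomputable def L {n d : ℕ} (A : Fin n → Matrix (Fin d) (Fin d) ℂ) : ℝ :=
  (CFC.sqrt (∑ j, A j ^ 2)).trace.re - ∑ j, (A j).trace.re

/-- `R(A_1, ..., A_n) = ∑_{j < k} (‖A_j - A_k‖₁ - Tr (A_j + A_k))`. -/
noncomputable def R {n d : ℕ} (A : Fin n → Matrix (Fin d) (Fin d) ℂ) : ℝ :=
  ∑ j, ∑ k, if j < k then traceNorm (A j - A k) - (A j + A k).trace.re else 0

/-- **The multivariate trace inequality**, with the constant `32 n + 8`. -/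
theorem result (n d : ℕ) (A : Fin n → Matrix (Fin d) (Fin d) ℂ) (hA : ∀ j, (A j).PosSemidef) :
    (32 * n + 8 : ℝ) * R A ≤ L A :=
  Pool.Agent.Q204.TI.main A hA

end Pool.Agent.Results.MP_ebd556_mp.MultivariateTrace
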